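import Pool.Agent.H87.SH.Targets
import Pool.Agent.H87.SN.Tools
import Pool.Agent.H13.SN.BO1

/-!
# Row STA of the board hlf (helper87, MP_2697e3_an)

Smooth maps whose Laplacian is normal to the image are stationary.
-/

namespace Pool.Agent.H1.SH

open Pool.Agent.H87.SN Pool.Agent.H87.SH
open MeasureTheory Metric Set Filter Topology
open scoped ContDiff RealInnerProductSpace ENNReal

variable {n m : ℕ}

theorem comp_cd {X : E n → E n} (hX : ContDiff ℝ 1 X) (j : Fin n) :
    ContDiff ℝ 1 (fun x => X x j) :=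
  (EuclideanSpace.proj j : E n →L[ℝ] ℝ).contDiff.comp hX

theorem comp_fd {X : E n → E n} (hX : ContDiff ℝ 1 X) (j : Fin n) (x v : E n) :
    fderiv ℝ (fun x => X x j) x v = (fderiv ℝ X x v) j := by
  have h1 : DifferentiableAt ℝ X x := (hX.differentiable (by norm_num)) x
  have h2 := ((EuclideanSpace.proj j : E n →L[ℝ] ℝ).hasFDerivAt
    (x := X x)).comp x h1.hasFDerivAt
  have h3 : fderiv ℝ (fun x => X x j) x =
      (EuclideanSpace.proj j : E n →L[ℝ] ℝ).comp (fderiv ℝ X x) :=
    h2.fderiv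
  rw [h3]
  rfl

theorem comp_ts {X : E n → E n} (j : Fin n) : tsupport (fun x => X x j) ⊆ tsupport X := by
  apply closure_mono
  intro x hx
  rw [Function.mem_support] at hx ⊢
  intro h
  exact hx (by rw [h]; rfl)

theorem comp_cs {X : E n → E n} (hc : HasCompactSupport X) (j : Fin n) :
    HasCompactSupport (fun x => X x j) :=
  hc.of_isClosed_subset (isClosed_tsupport _) (comp_ts j)

/-- Derivative of an entry of the stress tensor. -/
theorem db {U : Set (E n)} {u : E n → E m} (hU : IsOpen U) (hu : ContDiffOn ℝ ∞ u U) {x : E n}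
    (hx : x ∈ U) (i j : Fin n) :
    fderiv ℝ (fun y => ⟪fderiv ℝ u y (bv i), fderiv ℝ u y (bv j)⟫) x (bv i) =
      ⟪fderiv ℝ (fderiv ℝ u) x (bv i) (bv i), fderiv ℝ u x (bv j)⟫ +
        ⟪fderiv ℝ u x (bv i), fderiv ℝ (fderiv ℝ u) x (bv j) (bv i)⟫ := by
  have h1 := H13.SN.smooth_fderiv hU hu
  have hd : ∀ i : Fin n, DifferentiableAt ℝ (fun y => fderiv ℝ u y (bv i)) x :=
    fun i => H13.SN.diffAt hU (H13.SN.smooth_app h1 _) hx
  rw [fderiv_inner_apply ℝ (hd i) (hd j), H13.SN.fderiv_app (H13.SN.diffAt hU h1 hx),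
    H13.SN.fderiv_app (H13.SN.diffAt hU h1 hx), H13.SN.symm2 hU hu hx (bv i) (bv j)]
  ring

theorem pf_STA (hIBP : Pool.Agent.H87.SN.T_IBP) : T_STA := by
  intro n m L U u hU hM X hX hXc hXs
  have hu := hM.smooth
  have h1 := H13.SN.smooth_fderiv hU hu
  have hb0 : ContDiffOn ℝ ∞ (fun x => nsq (fderiv ℝ u x)) U := by
    unfold nsq
    exact ContDiffOn.sum (fun i _ => (H13.SN.smooth_app h1 (bv i)).norm_sq ℝ)
  have hb : ∀ i j : Fin n, ContDiffOn ℝ ∞
      (fun y => ⟪fderiv ℝ u y (bv i), fderiv ℝ u y (bv j)⟫) U :=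
    fun i j => (H13.SN.smooth_app h1 (bv i)).inner ℝ (H13.SN.smooth_app h1 (bv j))
  have one_le : (1 : WithTop ℕ∞) ≤ ((⊤ : ℕ∞) : WithTop ℕ∞) :=
    WithTop.coe_le_coe.mpr (le_top : (1 : ℕ∞) ≤ ⊤)
  -- the components
  have ha := fun j : Fin n => comp_cd hX j
  have hac := fun j : Fin n => comp_cs hXc j
  have has : ∀ j : Fin n, tsupport (fun x => X x j) ⊆ U := fun j => (comp_ts j).trans hXs
  -- integrability of the terms
  have hint : ∀ (j : Fin n) (v : E n) (b : E n → ℝ), ContDiffOn ℝ ∞ b U →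
      Integrable (fun x => (fderiv ℝ X x v) j * b x) := by
    intro j v b hb
    have e2 : (fun x => (fderiv ℝ X x v) j * b x) =
        fun x => (fun x => fderiv ℝ (fun x => X x j) x v) x * b x := by
      funext x
      show (fderiv ℝ X x v) j * b x = fderiv ℝ (fun x => X x j) x v * b x
      rw [comp_fd hX]
    rw [e2]
    have hsub : tsupport (fun x => fderiv ℝ (fun x => X x j) x v) ⊆
        tsupport (fun x => X x j) := tsupport_fderiv_apply_subset ℝ v
    refine int_mul hU ?_ ?_ (hsub.trans (has j)) hb.continuousOn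
    · exact ((ha j).continuous_fderiv (by norm_num)).clm_apply continuous_const
    · exact (hac j).of_isClosed_subset (isClosed_tsupport _) hsub
  have hint2 : ∀ (j : Fin n) (v : E n) (b : E n → ℝ), ContDiffOn ℝ ∞ b U →
      Integrable (fun x => X x j * fderiv ℝ b x v) := by
    intro j v b hb
    have h2 : ContDiffOn ℝ ∞ (fun x => fderiv ℝ b x v) U :=
      H13.SN.smooth_app (H13.SN.smooth_fderiv hU hb) v
    exact int_mul hU (ha j).continuous (hac j) (has j) h2.continuousOn
  have hibp : ∀ (j : Fin n) (v : E n) (b : E n → ℝ), ContDiffOn ℝ ∞ b U →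
      ∫ x, (fderiv ℝ X x v) j * b x = - ∫ x, X x j * fderiv ℝ b x v := by
    intro j v b hb
    have h := hIBP.2 n U (fun x => X x j) b v hU (ha j) (hac j) (has j) (hb.of_le one_le)
    rw [h, neg_neg]
    refine integral_congr_ae (Filter.Eventually.of_forall fun x => ?_)
    show (fderiv ℝ X x v) j * b x = fderiv ℝ (fun x => X x j) x v * b x
    rw [comp_fd hX]
  -- one column
  have hcol : ∀ j : Fin n, ∫ x, (fderiv ℝ X x (bv j)) j * nsq (fderiv ℝ u x) =
      2 * ∑ i : Fin n, ∫ x, (fderiv ℝ X x (bv i)) j *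
        ⟪fderiv ℝ u x (bv i), fderiv ℝ u x (bv j)⟫ := by
    intro j
    rw [hibp j (bv j) _ hb0]
    have e1 : ∀ i : Fin n, ∫ x, (fderiv ℝ X x (bv i)) j *
        ⟪fderiv ℝ u x (bv i), fderiv ℝ u x (bv j)⟫ =
        - ∫ x, X x j * fderiv ℝ (fun y => ⟪fderiv ℝ u y (bv i), fderiv ℝ u y (bv j)⟫) x (bv i) :=
      fun i => hibp j (bv i) _ (hb i j)
    rw [Finset.sum_congr rfl fun i _ => e1 i, Finset.sum_neg_distrib, mul_neg,
      ← integral_finsetSum _ fun i _ => hint2 j (bv i) _ (hb i j), ← integral_const_mul]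
    congr 1
    refine integral_congr_ae (Filter.Eventually.of_forall fun x => ?_)
    by_cases hx : x ∈ U
    · show X x j * fderiv ℝ (fun y => nsq (fderiv ℝ u y)) x (bv j) = 2 * ∑ i : Fin n,
        X x j * fderiv ℝ (fun y => ⟪fderiv ℝ u y (bv i), fderiv ℝ u y (bv j)⟫) x (bv i)
      have hl : ∑ i : Fin n, fderiv ℝ (fderiv ℝ u) x (bv i) (bv i) = lap u x := rfl
      have h5 : ∑ i : Fin n,
          fderiv ℝ (fun y => ⟪fderiv ℝ u y (bv i), fderiv ℝ u y (bv j)⟫) x (bv i) =
          ∑ i : Fin n, ⟪fderiv ℝ u x (bv i), fderiv ℝ (fderiv ℝ u) x (bv j) (bv i)⟫ := by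
        rw [Finset.sum_congr rfl fun i _ => db hU hu hx i j, Finset.sum_add_distrib, ← sum_inner,
          hl, real_inner_comm, hM.orth x hx (bv j), zero_add]
      rw [H13.SN.dq hU hu hx (bv j), ← Finset.mul_sum, ← Finset.mul_sum, h5]
      ring
    · have h0 : X x j = 0 := by
        have h6 : x ∉ tsupport (fun x => X x j) := fun h => hx (has j h)
        exact image_eq_zero_of_notMem_tsupport (f := fun x => X x j) h6
      simp [h0]
  -- the integrand
  have hF : (fun x => statF (fderiv ℝ u x) (fderiv ℝ X x)) = fun x =>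
      ∑ j : Fin n, ((fderiv ℝ X x (bv j)) j * nsq (fderiv ℝ u x) -
        2 * ∑ i : Fin n, (fderiv ℝ X x (bv i)) j *
          ⟪fderiv ℝ u x (bv i), fderiv ℝ u x (bv j)⟫) := by
    funext x
    unfold statF
    rw [Finset.sum_sub_distrib, ← Finset.mul_sum, ← Finset.sum_mul,
      Finset.sum_comm (f := fun j i : Fin n => (fderiv ℝ X x (bv i)) j *
          ⟪fderiv ℝ u x (bv i), fderiv ℝ u x (bv j)⟫), mul_comm]
    congr 2
    refine Finset.sum_congr rfl fun i _ => Finset.sum_congr rfl fun j _ => ?_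
    rw [mul_comm]
  rw [hF, integral_finsetSum]
  · refine Finset.sum_eq_zero fun j _ => ?_
    rw [integral_sub (hint j (bv j) _ hb0)
      ((integrable_finsetSum _ fun i _ => hint j (bv i) _ (hb i j)).const_mul 2),
      integral_const_mul, integral_finsetSum _ fun i _ => hint j (bv i) _ (hb i j), hcol j,
      sub_self]
  · intro j _
    exact (hint j (bv j) _ hb0).sub
      ((integrable_finsetSum _ fun i _ => hint j (bv i) _ (hb i j)).const_mul 2)

end Pool.Agent.H1.SH
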